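import Pool.Agent.H17P.Main
import Pool.Agent.H18C.CutFin
import Pool.Agent.H62P.SideP
import Pool.Agent.H62P.TransP

/-!
# Q1 for all `k` and all orders
-/

set_option autoImplicit false

namespace Pool.Agent.H17P

open List Pool.Agent.TF82 Pool.Agent.TFC Pool.Agent.TFB Pool.Agent.EG31 Pool.Agent.H18C
  Pool.Agent.H62P

universe u

/-- Q1 for all `k` and all orders -/
theorem q1_all {V : Type u} [Fintype V]
    [DecidableEq V] (G : SimpleGraph V) [DecidableRel G.Adj] (k : ℕ)
    (hC : ∀ I : Finset V, G.IsIndepSet (I : Set V) → ∀ v ∈ I,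
      I.card + 1 ≤ dU G Finset.univ v)
    (hσ : ∀ I : Finset V, G.IsIndepSet (I : Set V) → I.card = k + 1 →
      Fintype.card V ≤ ∑ v ∈ I, dU G Finset.univ v) : Cov G k :=
  q1_of_pkg Pool.Agent.H18C.cutStepP H62P.sideStepP mainStepP transferP G k hC hσ

end Pool.Agent.H17P
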