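import Pool.Agent.H62P.Pkg
import Pool.Agent.H37F.Gam

/-!
# The longest cycle and the long paths of the 2-connected step, from the component packages
-/

set_option autoImplicit false

namespace Pool.Agent.H17P

open List Pool.Agent.TF82 Pool.Agent.TFC Pool.Agent.TFB Pool.Agent.EG31 Pool.Agent.H18C
  Pool.Agent.H62P

universe u

set_option linter.unusedSectionVars false
set_option linter.unusedVariables false

variable {V : Type u} [DecidableEq V]

/-- `hlen` and `hgam` of `main_fin` from the packages of the components -/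
theorem gam_glue [Fintype V] {G : SimpleGraph V} [DecidableRel G.Adj] {W : Finset V} {b f : ℕ}
    (h2 : Conn2 G Finset.univ) {c : List V} (hM : IsMax G 1 [c]) {R : Finset V}
    (hR : Reps G [c] R) {S' I : V → Finset V} {bb : V → ℕ}
    (hP : ∀ y ∈ R, (I y).Nonempty →
      Pkg G (comp G [c] y) (S' y) (bb y) (I y).card (I y))
    (hsur : ∀ y ∈ R, (I y).Nonempty →
      b + ∑ j ∈ R.erase y, (I j).card + (W \ comp G [c] y).card ≤ bb y)
    (hk : f ≤ 1 + ∑ y ∈ R, (I y).card) (hf : 2 ≤ f) :
    2 * (f + b) + 2 ≤ c.length ∧ ∀ x x', x ≠ x' → Pth G Finset.univ x x' (f + b + 2) := by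
  obtain ⟨y, hy, hne⟩ : ∃ y ∈ R, (I y).Nonempty := by
    by_contra hcon
    push Not at hcon
    have h0 : ∑ y ∈ R, (I y).card = 0 := by
      refine Finset.sum_eq_zero fun y hy => ?_
      rw [hcon y hy, Finset.card_empty]
    omega
  have h1 := hsur y hy hne
  have h3 : ∑ y ∈ R, (I y).card = (I y).card + ∑ j ∈ R.erase y, (I j).card :=
    (Finset.add_sum_erase R (fun y => (I y).card) hy).symm
  have hK : comp G [c] y ⊆ unc [c] := fun x hx => (mem_comp.1 hx).1
  exact Pool.Agent.H37F.gam_step hM h2 hK (hP y hy hne) (by omega)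

end Pool.Agent.H17P
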