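import Pool.Agent.H82M.DatG
import Pool.Agent.H62P.MainFin
import Pool.Agent.H35P.Sum
import Pool.Agent.H40C.One
import Pool.Agent.H37F.M1S
import Pool.Agent.H6T.Lab4
import Pool.Agent.H17P.Gam

/-!
# The 2-connected step of the package
-/

set_option autoImplicit false

namespace Pool.Agent.H17P

open List Pool.Agent.TF82 Pool.Agent.TFC Pool.Agent.TFB Pool.Agent.EG31 Pool.Agent.H18C
  Pool.Agent.H62P

universe u

set_option linter.unusedSectionVars false
set_option linter.unusedVariables false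

variable {V : Type u} [DecidableEq V]

theorem comp_lt [Fintype V] {G : SimpleGraph V} {c : List V} (hM : IsMax G 1 [c]) (y : V) :
    (comp G [c] y).card < Fintype.card V := by
  have hc : CycL G c := hM.fam.cyc c (by simp)
  obtain ⟨p, hp⟩ := List.exists_mem_of_length_pos (l := c) (by have := hc.2.1; omega)
  refine Finset.card_lt_univ_of_notMem (x := p) fun h => ?_
  exact mem_unc.1 (mem_comp.1 h).1 (by simpa using hp)

/-- the component packages -/
theorem parts [Fintype V] {G : SimpleGraph V} [DecidableRel G.Adj] {W : Finset V} {b : ℕ}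
    (hK : Kb G Finset.univ W b) (h2 : Conn2 G Finset.univ) (hIH : IHP G (Fintype.card V))
    {c : List V} (hM : IsMax G 1 [c]) {R : Finset V} (hR : Reps G [c] R) :
    ∃ (I : V → Finset V) (bb : V → ℕ),
      (∀ y ∈ R, ¬ (comp G [c] y \ W).Nonempty → I y = ∅) ∧
      (∀ y ∈ R, (comp G [c] y \ W).Nonempty → 1 ≤ (I y).card ∧
        MinCov G (comp G [c] y) (W ∩ comp G [c] y) (I y).card ∧
        Kb G (comp G [c] y) (H6T.Lab.Sp G W [c] (comp G [c] y)) (bb y) ∧
        Pkg G (comp G [c] y) (H6T.Lab.Sp G W [c] (comp G [c] y)) (bb y) (I y).card (I y) ∧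
        b + ∑ j ∈ R.erase y, (I j).card + (W \ comp G [c] y).card ≤ bb y) := by
  classical
  -- first stage: surplus zero
  have h0 : ∀ y, ∃ (m : ℕ) (J : Finset V), (y ∈ R → (comp G [c] y \ W).Nonempty →
      1 ≤ m ∧ MinCov G (comp G [c] y) (H6T.Lab.Sp G W [c] (comp G [c] y)) m ∧
      Pkg G (comp G [c] y) (H6T.Lab.Sp G W [c] (comp G [c] y)) 0 m J) ∧
      (¬ (y ∈ R ∧ (comp G [c] y \ W).Nonempty) → J = ∅ ∧ m = 0) := by
    intro y
    by_cases hy : y ∈ R ∧ (comp G [c] y \ W).Nonempty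
    · have kb := H37F.kb_Sp hK.cw hM (hR.sub hy.1) hy.2
      obtain ⟨m, hm⟩ := kb.cov
      obtain ⟨J, hJ⟩ := hIH _ _ 0 m (comp_lt hM y) kb hm
      exact ⟨m, J, fun _ _ => ⟨kb.pos hm, hm, hJ⟩, fun h => absurd hy h⟩
    · exact ⟨0, ∅, fun h1 h2 => absurd ⟨h1, h2⟩ hy, fun _ => ⟨rfl, rfl⟩⟩
  choose m J hJ1 hJ0 using h0
  have hJcard : ∀ y, (J y).card = m y := by
    intro y
    by_cases hy : y ∈ R ∧ (comp G [c] y \ W).Nonempty
    · exact (hJ1 y hy.1 hy.2).2.2.card
    · rw [(hJ0 y hy).1, (hJ0 y hy).2, Finset.card_empty]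
  have hJmem : ∀ y ∈ R, ∀ x ∈ J y, (comp G [c] y \ W).Nonempty := by
    intro y hy x hx
    by_contra hcon
    rw [(hJ0 y (fun h => hcon h.2)).1] at hx
    simp at hx
  have hJg : ∀ y ∈ R, ∀ x ∈ J y, Good G (comp G [c] y) (H6T.Lab.Sp G W [c] (comp G [c] y)) x :=
    fun y hy x hx => (hJ1 y hy (hJmem y hy x hx)).2.2.good x hx
  have hJs : ∀ y ∈ R, J y ⊆ comp G [c] y := fun y hy x hx => (hJg y hy x hx).mem
  have hJi : ∀ y ∈ R, G.IsIndepSet (J y : Set V) := by
    intro y hy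
    by_cases hne : (comp G [c] y \ W).Nonempty
    · exact (hJ1 y hy hne).2.2.ind
    · rw [(hJ0 y (fun h => hne h.2)).1]
      simp
  have hCb : CWb G Finset.univ W b := by
    intro I hI hi v hv
    exact hK.sur I hI hi v hv ⟨Finset.mem_univ _, (Finset.mem_sdiff.1 (hI hv)).2,
      h2 v (Finset.mem_univ _)⟩
  have hlab := H6T.Lab.lab (F := [c]) (J := R.biUnion J) hCb h2 hM rfl (by
      intro x hx
      obtain ⟨y, hy, hxy⟩ := Finset.mem_biUnion.1 hx
      exact (mem_comp.1 (hJs y hy hxy)).1)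
    (hR.indep hJs hJi) (by
      intro x hx
      obtain ⟨y, hy, hxy⟩ := Finset.mem_biUnion.1 hx
      rw [H6T.Lab.comp_eq (hJs y hy hxy)]
      exact hJg y hy x hxy) (by
      intro y hy v hv
      obtain ⟨y0, hy0, hyy⟩ := hR.cov y hy
      rw [H6T.Lab.comp_eq hyy] at hv ⊢
      have hvW : v ∉ W := fun h => hv.nS (Finset.mem_union_left _
        (Finset.mem_inter.2 ⟨h, hv.mem⟩))
      have hne : (comp G [c] y0 \ W).Nonempty := ⟨v, Finset.mem_sdiff.2 ⟨hv.mem, hvW⟩⟩
      have h1 := (hJ1 y0 hy0 hne).1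
      rw [← hJcard y0] at h1
      obtain ⟨x, hx⟩ := Finset.card_pos.1 (show 0 < (J y0).card by omega)
      exact ⟨x, Finset.mem_biUnion.2 ⟨y0, hy0, hx⟩, hJs y0 hy0 hx⟩)
  -- second stage
  have hcnt : ∀ y ∈ R, ∑ j ∈ R.erase y, (J j).card ≤ (R.biUnion J \ comp G [c] y).card := by
    intro y hy
    rw [← Finset.card_biUnion (fun j hj j' hj' h => hR.pwd hJs
      (Finset.mem_of_mem_erase hj) (Finset.mem_of_mem_erase hj') h)]
    refine Finset.card_le_card ?_
    intro x hx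
    obtain ⟨j, hj, hxj⟩ := Finset.mem_biUnion.1 hx
    obtain ⟨hjy, hjR⟩ := Finset.mem_erase.1 hj
    exact Finset.mem_sdiff.2 ⟨Finset.mem_biUnion.2 ⟨j, hjR, hxj⟩, fun h =>
      Finset.disjoint_left.1 (hR.dis j hjR y hy hjy) (hJs j hjR hxj) h⟩
  have h1 : ∀ y, ∃ I : Finset V, (y ∈ R → (comp G [c] y \ W).Nonempty →
      Kb G (comp G [c] y) (H6T.Lab.Sp G W [c] (comp G [c] y))
        (b + (R.biUnion J \ comp G [c] y).card + (W \ comp G [c] y).card) ∧
      Pkg G (comp G [c] y) (H6T.Lab.Sp G W [c] (comp G [c] y))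
        (b + (R.biUnion J \ comp G [c] y).card + (W \ comp G [c] y).card) (m y) I) ∧
      (¬ (y ∈ R ∧ (comp G [c] y \ W).Nonempty) → I = ∅) := by
    intro y
    by_cases hy : y ∈ R ∧ (comp G [c] y \ W).Nonempty
    · have kb := H37F.kb_Sp hK.cw hM (hR.sub hy.1) hy.2
      have kb' : Kb G (comp G [c] y) (H6T.Lab.Sp G W [c] (comp G [c] y))
          (b + (R.biUnion J \ comp G [c] y).card + (W \ comp G [c] y).card) :=
        ⟨kb.sub, kb.con, kb.ne, kb.cw, fun I hI hi v hv hg =>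
          hlab y (hR.sub hy.1) I hI hi v hv hg.nc⟩
      obtain ⟨I, hI⟩ := hIH _ _ _ (m y) (comp_lt hM y) kb' (hJ1 y hy.1 hy.2).2.1
      exact ⟨I, fun _ _ => ⟨kb', hI⟩, fun h => absurd hy h⟩
    · exact ⟨∅, fun h1 h2 => absurd ⟨h1, h2⟩ hy, fun _ => rfl⟩
  choose I hI1 hI0 using h1
  have hIcard : ∀ y, (I y).card = m y := by
    intro y
    by_cases hy : y ∈ R ∧ (comp G [c] y \ W).Nonempty
    · exact (hI1 y hy.1 hy.2).2.card
    · rw [hI0 y hy, (hJ0 y hy).2, Finset.card_empty]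
  refine ⟨I, fun y => b + (R.biUnion J \ comp G [c] y).card + (W \ comp G [c] y).card,
    fun y hy hne => hI0 y (fun h => hne h.2), ?_⟩
  intro y hy hne
  rw [hIcard y]
  refine ⟨(hJ1 y hy hne).1, (H37F.minCov_Sp hK.cw hM (hR.sub hy) (m y)).1 (hJ1 y hy hne).2.1,
    (hI1 y hy hne).1, (hI1 y hy hne).2, ?_⟩
  have h3 : ∑ j ∈ R.erase y, (I j).card = ∑ j ∈ R.erase y, (J j).card :=
    Finset.sum_congr rfl fun j _ => by rw [hIcard j, hJcard j]
  have h4 := hcnt y hy
  rw [h3]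
  show b + ∑ j ∈ R.erase y, (J j).card + (W \ comp G [c] y).card ≤
    b + (R.biUnion J \ comp G [c] y).card + (W \ comp G [c] y).card
  omega

/-- **the 2-connected step** -/
theorem mainStepP : MainStepP.{u} := by
  intro V _ _ G _ W b f hK hf h2 hIH
  classical
  have hpos := hK.pos hf
  by_cases hf1 : f = 1
  · subst hf1
    exact H40C.pkg_one hK h2
  obtain ⟨c, hM⟩ := exists_main_cycle hK.cw hK.ne
  obtain ⟨R, hR⟩ := H62P.exists_reps G [c]
  obtain ⟨I, bb, hI0, hI1⟩ := parts hK h2 hIH hM hR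
  have hc : CycL G c := hM.fam.cyc c (by simp)
  have hfl : [c].flatten = c := by simp
  -- the number of members
  have hcovR : ∀ y ∈ R, CovW G (comp G [c] y) (W ∩ comp G [c] y) (I y).card := by
    intro y hy
    by_cases hne : (comp G [c] y \ W).Nonempty
    · exact (hI1 y hy hne).2.1.1
    · rw [hI0 y hy hne, Finset.card_empty]
      refine ⟨[], le_rfl, ⟨by simp, by simp⟩, by simp, ?_⟩
      intro x hx
      obtain ⟨hx1, hx2⟩ := Finset.mem_sdiff.1 hx
      exact absurd ⟨x, Finset.mem_sdiff.2 ⟨hx1, fun h => hx2 (Finset.mem_inter.2 ⟨h, hx1⟩)⟩⟩ hne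
  have hk : f ≤ 1 + ∑ y ∈ R, (I y).card :=
    hf.le (hR.cov_univ hM.fam (fun y => (I y).card) hcovR)
  have hne_of : ∀ y ∈ R, (I y).Nonempty → (comp G [c] y \ W).Nonempty := by
    intro y hy h
    by_contra hcon
    rw [hI0 y hy hcon] at h
    simp at h
  have hPk : ∀ y ∈ R, (I y).Nonempty →
      Pkg G (comp G [c] y) (H6T.Lab.Sp G W [c] (comp G [c] y)) (bb y) (I y).card (I y) :=
    fun y hy h => (hI1 y hy (hne_of y hy h)).2.2.2.1
  have hsur : ∀ y ∈ R, (I y).Nonempty →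
      b + ∑ j ∈ R.erase y, (I j).card + (W \ comp G [c] y).card ≤ bb y :=
    fun y hy h => (hI1 y hy (hne_of y hy h)).2.2.2.2
  obtain ⟨hlen, hgam⟩ := gam_glue h2 hM hR (S' := fun y => H6T.Lab.Sp G W [c] (comp G [c] y))
    hPk hsur hk (by omega)
  -- the data of the count
  set K : Finset V := R.filter (fun y => (comp G [c] y \ W).Nonempty) with hKdef
  have hKR : K ⊆ R := Finset.filter_subset _ _
  have hKne : ∀ y ∈ K, (comp G [c] y \ W).Nonempty := fun y hy => (Finset.mem_filter.1 hy).2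
  have hKo : ∀ y ∈ R, y ∉ K → I y = ∅ := fun y hy hyK =>
    hI0 y hy (fun h => hyK (Finset.mem_filter.2 ⟨hy, h⟩))
  have hIK : ∀ y ∈ K, 1 ≤ (I y).card := fun y hy => (hI1 y (hKR hy) (hKne y hy)).1
  have hKn : K.Nonempty := by
    by_contra hcon
    rw [Finset.not_nonempty_iff_eq_empty] at hcon
    have : ∑ y ∈ R, (I y).card = 0 := by
      refine Finset.sum_eq_zero fun y hy => ?_
      rw [hKo y hy (by rw [hcon]; simp), Finset.card_empty]
    omega
  have hsub : ∀ y ∈ R, ∑ z ∈ K.erase y, (I z).card ≤ ∑ z ∈ R.erase y, (I z).card := by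
    intro y hy
    exact Finset.sum_le_sum_of_subset (Finset.erase_subset_erase _ hKR)
  have hWc : ∀ y ∈ R, (W ∩ [c].flatten.toFinset).card ≤ (W \ comp G [c] y).card := by
    intro y hy
    refine Finset.card_le_card ?_
    intro x hx
    rw [Finset.mem_inter, List.mem_toFinset] at hx
    exact Finset.mem_sdiff.2 ⟨hx.1, fun h => mem_unc.1 (mem_comp.1 h).1 hx.2⟩
  have hS : H82M.Sit G W [c] K (fun y => (I y).card) bb I := by
    refine ⟨hM, rfl, h2, fun y hy => hR.sub (hKR hy), ?_, hIK, ?_, ?_, ?_, ?_⟩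
    · intro y hy y' hy' hne h
      exact Finset.disjoint_left.1 (hR.dis y (hKR hy) y' (hKR hy') hne) h
        (mem_comp.2 ⟨hR.sub (hKR hy'), Relation.ReflTransGen.refl⟩)
    · intro y hy
      exact (hI1 y (hKR hy) (hKne y hy)).2.2.2.1
    · intro y hy
      exact (hI1 y (hKR hy) (hKne y hy)).2.2.1
    · intro y hy
      have e1 := (hI1 y (hKR hy) (hKne y hy)).2.2.2.2
      have e2 := hsub y (hKR hy)
      have e3 := hWc y (hKR hy)
      omega
    · obtain ⟨y, hy⟩ := hKn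
      have e1 := (hI1 y (hKR hy) (hKne y hy)).2.2.2.2
      have e2 := hsub y (hKR hy)
      have e3 := hWc y (hKR hy)
      have e4 := hIK y hy
      obtain ⟨D, hD, hD2, hn⟩ := (hI1 y (hKR hy) (hKne y hy)).2.2.2.1.co
      have e5 := H37F.gam_long hM h2 (hD.trans (fun x hx => (mem_comp.1 hx).1)) hD2 hn
      have e6 : (K.erase y).card ≤ ∑ z ∈ K.erase y, (I z).card := by
        rw [Finset.card_eq_sum_ones]
        exact Finset.sum_le_sum (fun z hz => hIK z (Finset.mem_of_mem_erase hz))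
      rw [Finset.card_erase_of_mem hy] at e6
      rw [List.toFinset_card_of_nodup hM.fam.nod]
      rw [hfl] at e3 ⊢
      omega
  obtain ⟨p, hpC, hpW, hpS, hcnt⟩ := hS.dat.count hKn
  have hpc : p ∈ c := by
    have : p ∈ [c].flatten.toFinset := hpC
    rw [List.mem_toFinset, hfl] at this
    exact this
  have hpfl : p ∈ [c].flatten := by rw [hfl]; exact hpc
  -- `p` is not rich
  have hnp : ∀ y ∈ K, ∀ x ∈ comp G [c] y, ∀ x' ∈ comp G [c] y, G.Adj p x → G.Adj p x' →
      Near G (comp G [c] y) (H6T.Lab.Sp G W [c] (comp G [c] y)) x x' := by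
    intro y hy x hx x' hx' hpx hpx'
    by_contra hcon
    exact hpS y hy ⟨hpfl, x, hx, x', hx', hpx, hpx', hcon⟩
  have hclean : ∀ y ∈ R, ∀ v ∈ I y, ∀ w ∈ c, G.Adj v w →
      ∃ x ∈ comp G [c] y, x ≠ v ∧ G.Adj x w := by
    intro y hy v hv w hw hvw
    obtain ⟨x, h1, h3, h4⟩ := H82M.good_nb ((hPk y hy ⟨v, hv⟩).good v hv)
      (by rw [hfl]; exact hw) hvw.symm
    exact ⟨x, h1, h3, h4.symm⟩
  have hIs : ∀ y ∈ R, I y ⊆ comp G [c] y := fun y hy v hv =>
    ((hPk y hy ⟨v, hv⟩).good v hv).mem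
  refine main_fin hK h2 hM hR (S' := fun y => H6T.Lab.Sp G W [c] (comp G [c] y)) (I := I)
    (bb := bb) ?_ ?_ hclean ?_ hsur (fun y hy h => (hPk y hy h).p1)
    (fun y hy h => (hPk y hy h).p2) hlen hgam hpc hpW ?_ hk ?_
  · intro y hy v hv
    have hg := (hPk y hy ⟨v, hv⟩).good v hv
    exact Finset.mem_sdiff.2 ⟨hg.mem, fun h => hg.nS (Finset.mem_union_left _
      (Finset.mem_inter.2 ⟨h, hg.mem⟩))⟩
  · intro y hy
    by_cases h : (I y).Nonempty
    · exact (hPk y hy h).ind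
    · rw [Finset.not_nonempty_iff_eq_empty] at h
      rw [h]
      simp
  · intro y hy
    exact Finset.subset_union_left
  · intro y hy v hv
    have hyK : y ∈ K := by
      by_contra hcon
      rw [hKo y hy hcon] at hv
      simp at hv
    exact H35P.not_adj_members (fun v hv => (hPk y hy ⟨v, hv⟩).good v hv)
      (fun v hv h => hclean y hy v hv p hpc h) (hnp y hyK) v hv
  · have h := H35P.sum_ineq (c := c) (R := R) (K := K)
      (S' := fun y => H6T.Lab.Sp G W [c] (comp G [c] y)) (I := I) hM.fam hR hKR hKo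
      (fun y hy N hN hnear => (hI1 y (hKR hy) (hKne y hy)).2.2.2.1.near N hN hnear)
      (p := p) hnp (T := hS.dat.T) (nn := hS.dat.nn p) (by
        intro y hy
        rw [H35P.double (hIs y (hKR hy))]
        show _ ≤ ∑ v ∈ [c].flatten.toFinset, ((I y).filter (fun u => G.Adj v u)).card
        rw [hfl]
        refine le_of_eq (Finset.sum_congr rfl fun w _ => ?_)
        congr 1
        ext v
        simp only [Finset.mem_filter, G.adj_comm]) hpc (by
        refine H35P.nn_add (F := [c].flatten.toFinset.filter (fun z => z ≠ p ∧ ¬ G.Adj p z))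
          hc.1 hpc ?_ (le_of_eq ?_)
        · intro z
          rw [Finset.mem_filter, List.mem_toFinset, hfl]
        · show (Finset.card _) = _
          congr 1
          ext z
          simp only [Finset.mem_filter]
          rfl) hcnt
    rwa [hfl] at h

end Pool.Agent.H17P
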