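import Pool.Agent.H18C.Near

/-!
# The list package (index = depth) of a 2-connected level from those of its components
-/

set_option autoImplicit false

namespace Pool.Agent.H17P

open List Pool.Agent.TF82 Pool.Agent.TFC Pool.Agent.EG31 Pool.Agent.H18C

universe u

set_option linter.unusedSectionVars false
set_option linter.unusedVariables false

variable {V : Type u} [DecidableEq V]

/-- a path in `H` from `a` to `b` with at least `n` vertices -/
def Pth (G : SimpleGraph V) (H : Finset V) (a b : V) (n : ℕ) : Prop :=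
  ∃ q, Seg G q a b ∧ q.Nodup ∧ (∀ z ∈ q, z ∈ H) ∧ n ≤ q.length

/-- list package with offset `o`: the member with index `i` has depth `o + i` -/
structure LPo (G : SimpleGraph V) (H : Finset V) (κ o : ℕ) (L : List V) : Prop where
  B : ∀ i (hi : i < L.length), ∀ x ∈ H, x ≠ L[i] → Pth G H L[i] x (κ + 1 - (o + i))
  A : ∀ i j (hi : i < L.length) (hj : j < L.length), i < j →
    Pth G H L[i] L[j] (2 * κ + 1 - (o + i) - (o + j))

theorem Pth.mono {G : SimpleGraph V} {H H' : Finset V} {a b : V} {n n' : ℕ}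
    (h : Pth G H a b n) (hH : H ⊆ H') (hn : n' ≤ n) : Pth G H' a b n' := by
  obtain ⟨q, h1, h2, h3, h4⟩ := h
  exact ⟨q, h1, h2, fun z hz => hH (h3 z hz), hn.trans h4⟩

theorem Pth.symm {G : SimpleGraph V} {H : Finset V} {a b : V} {n : ℕ}
    (h : Pth G H a b n) : Pth G H b a n := by
  obtain ⟨q, h1, h2, h3, h4⟩ := h
  exact ⟨q.reverse, h1.rev, List.nodup_reverse.2 h2, fun z hz => h3 z (List.mem_reverse.1 hz),
    by rwa [List.length_reverse]⟩

/-- two paths in disjoint sets joined by an edge -/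
theorem Pth.join {G : SimpleGraph V} {A B H : Finset V} {a b c d : V} {m n : ℕ}
    (h1 : Pth G A a b m) (h2 : Pth G B c d n) (hbc : G.Adj b c) (hd : _root_.Disjoint A B)
    (hA : A ⊆ H) (hB : B ⊆ H) : Pth G H a d (m + n) := by
  obtain ⟨q, q1, q2, q3, q4⟩ := h1
  obtain ⟨r, r1, r2, r3, r4⟩ := h2
  refine ⟨q ++ r, q1.append r1 hbc, ?_, ?_, ?_⟩
  · rw [List.nodup_append]
    refine ⟨q2, r2, ?_⟩
    rintro x hx y hy rfl
    exact (Finset.disjoint_left.1 hd) (q3 x hx) (r3 x hy)
  · intro z hz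
    rcases List.mem_append.1 hz with hz | hz
    · exact hA (q3 z hz)
    · exact hB (r3 z hz)
  · rw [List.length_append]
    omega

theorem Pth.of_conn {G : SimpleGraph V} {H : Finset V} (hH : Conn1 G H) {a b : V} (ha : a ∈ H)
    (hb : b ∈ H) : Pth G H a b 1 := by
  obtain ⟨q, h1, h2, h3⟩ := seg_of_reach (hH a ha b hb) ha
  exact ⟨q, h1, h2, h3, h1.pos⟩

theorem LPo.mono {G : SimpleGraph V} {H : Finset V} {κ κ' o o' : ℕ} {L : List V}
    (h : LPo G H κ' o' L) (hk : κ + o' ≤ κ' + o) : LPo G H κ o L := by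
  refine ⟨fun i hi x hx hne => (h.B i hi x hx hne).mono (Finset.Subset.refl _) (by omega),
    fun i j hi hj hij => (h.A i j hi hj hij).mono (Finset.Subset.refl _) (by omega)⟩

theorem LPo.take {G : SimpleGraph V} {H : Finset V} {κ o : ℕ} {L : List V}
    (h : LPo G H κ o L) (n : ℕ) : LPo G H κ o (L.take n) := by
  have key : ∀ i (hi : i < (L.take n).length), i < L.length := by
    intro i hi
    rw [List.length_take] at hi
    omega
  refine ⟨fun i hi x hx hne => ?_, fun i j hi hj hij => ?_⟩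
  · rw [List.getElem_take] at hne ⊢
    exact h.B i (key i hi) x hx hne
  · rw [List.getElem_take, List.getElem_take]
    exact h.A i j (key i hi) (key j hj) hij

/-- every entry of a concatenation is an entry of one of the lists, with a smaller index -/
theorem flat_get {Zs : List (Finset V × List V)} : ∀ (g : ℕ)
    (hg : g < (Zs.map Prod.snd).flatten.length),
    ∃ a, ∃ ha : a < Zs.length, ∃ i, ∃ hi : i < (Zs[a]).2.length,
      i ≤ g ∧ (Zs.map Prod.snd).flatten[g] = (Zs[a]).2[i] := by
  induction Zs with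
  | nil => intro g hg; simp at hg
  | cons z Zs ih =>
    intro g hg
    have e : ((z :: Zs).map Prod.snd).flatten = z.2 ++ (Zs.map Prod.snd).flatten := by simp
    by_cases h : g < z.2.length
    · refine ⟨0, by simp, g, by simpa using h, le_rfl, ?_⟩
      simp only [e, List.getElem_append_left h]
      rfl
    · rw [e, List.length_append] at hg
      obtain ⟨a, ha, i, hi, h1, h2⟩ := ih (g - z.2.length) (by omega)
      refine ⟨a + 1, by simpa using ha, i, by simpa using hi, by omega, ?_⟩
      simp only [e]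
      rw [List.getElem_append_right (by omega), h2]
      rfl

/-- two entries of a concatenation: in one list in the same order, or in two lists -/
theorem flat_get2 {Zs : List (Finset V × List V)} : ∀ (g g' : ℕ)
    (hg : g < (Zs.map Prod.snd).flatten.length) (hg' : g' < (Zs.map Prod.snd).flatten.length),
    g < g' →
    ∃ a, ∃ ha : a < Zs.length, ∃ i, ∃ hi : i < (Zs[a]).2.length,
    ∃ b, ∃ hb : b < Zs.length, ∃ j, ∃ hj : j < (Zs[b]).2.length,
      i ≤ g ∧ j ≤ g' ∧ (Zs.map Prod.snd).flatten[g] = (Zs[a]).2[i] ∧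
      (Zs.map Prod.snd).flatten[g'] = (Zs[b]).2[j] ∧ ((a = b ∧ i < j) ∨ a < b) := by
  induction Zs with
  | nil => intro g g' hg; simp at hg
  | cons z Zs ih =>
    intro g g' hg hg' hgg
    have e : ((z :: Zs).map Prod.snd).flatten = z.2 ++ (Zs.map Prod.snd).flatten := by simp
    by_cases h : g < z.2.length
    · by_cases h' : g' < z.2.length
      · refine ⟨0, by simp, g, by simpa using h, 0, by simp, g', by simpa using h', le_rfl,
          le_rfl, ?_, ?_, Or.inl ⟨rfl, hgg⟩⟩
        · simp only [e, List.getElem_append_left h]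
          rfl
        · simp only [e, List.getElem_append_left h']
          rfl
      · rw [e, List.length_append] at hg'
        obtain ⟨b, hb, j, hj, h1, h2⟩ := flat_get (Zs := Zs) (g' - z.2.length) (by omega)
        refine ⟨0, by simp, g, by simpa using h, b + 1, by simpa using hb, j, by simpa using hj,
          le_rfl, by omega, ?_, ?_, Or.inr (by omega)⟩
        · simp only [e, List.getElem_append_left h]
          rfl
        · simp only [e]
          rw [List.getElem_append_right (by omega), h2]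
          rfl
    · rw [e, List.length_append] at hg hg'
      obtain ⟨a, ha, i, hi, b, hb, j, hj, h1, h2, h3, h4, h5⟩ :=
        ih (g - z.2.length) (g' - z.2.length) (by omega) (by omega) (by omega)
      refine ⟨a + 1, by simpa using ha, i, by simpa using hi, b + 1, by simpa using hb, j,
        by simpa using hj, by omega, by omega, ?_, ?_, ?_⟩
      · simp only [e]
        rw [List.getElem_append_right (by omega), h3]
        rfl
      · simp only [e]
        rw [List.getElem_append_right (by omega), h4]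
        rfl
      · rcases h5 with ⟨h5, h6⟩ | h5
        · exact Or.inl ⟨by omega, h6⟩
        · exact Or.inr (by omega)

/-- the concatenation of the lists of the components, all attached to `K` -/
theorem lp_flat {G : SimpleGraph V} {H K : Finset V} {κ o : ℕ} {Zs : List (Finset V × List V)}
    (hKH : K ⊆ H) (hKc : Conn1 G K)
    (hsub : ∀ z ∈ Zs, z.1 ⊆ H \ K) (hl : ∀ z ∈ Zs, ∀ v ∈ z.2, v ∈ z.1)
    (hdis : Zs.Pairwise (fun a b : Finset V × List V => _root_.Disjoint a.1 b.1))
    (hLP : ∀ z ∈ Zs, LPo G z.1 κ o z.2)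
    (hhub : ∀ z ∈ Zs, ∀ v ∈ z.2, ∃ w ∈ K, ∃ x ∈ z.1, x ≠ v ∧ G.Adj w x)
    (hconn : ∀ z ∈ Zs, Conn1 G (H \ z.1)) :
    LPo G H κ o (Zs.map Prod.snd).flatten := by
  have hZH : ∀ z ∈ Zs, z.1 ⊆ H := fun z hz => (hsub z hz).trans Finset.sdiff_subset
  have hdK : ∀ z ∈ Zs, _root_.Disjoint z.1 K := fun z hz =>
    Finset.disjoint_left.2 fun x hx hxK => (Finset.mem_sdiff.1 (hsub z hz hx)).2 hxK
  refine ⟨fun g hg x hx hne => ?_, fun g g' hg hg' hgg => ?_⟩
  · obtain ⟨a, ha, i, hi, h1, h2⟩ := flat_get (Zs := Zs) g hg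
    have hz : Zs[a] ∈ Zs := List.getElem_mem ha
    rw [h2] at hne ⊢
    by_cases hxZ : x ∈ (Zs[a]).1
    · exact ((hLP _ hz).B i hi x hxZ hne).mono (hZH _ hz) (by omega)
    · obtain ⟨w, hw, y, hy, hyv, hwy⟩ := hhub _ hz _ (List.getElem_mem hi)
      have p1 := (hLP _ hz).B i hi y hy hyv
      have hwH : w ∈ H \ (Zs[a]).1 := Finset.mem_sdiff.2
        ⟨hKH hw, fun h => (Finset.disjoint_left.1 (hdK _ hz)) h hw⟩
      have p2 := Pth.of_conn (hconn _ hz) hwH (Finset.mem_sdiff.2 ⟨hx, hxZ⟩)
      have := Pth.join (H := H) p1 p2 hwy.symm Finset.disjoint_sdiff (hZH _ hz)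
        Finset.sdiff_subset
      exact this.mono (Finset.Subset.refl _) (by omega)
  · obtain ⟨a, ha, i, hi, b, hb, j, hj, h1, h2, h3, h4, h5⟩ :=
      flat_get2 (Zs := Zs) g g' hg hg' hgg
    have hza : Zs[a] ∈ Zs := List.getElem_mem ha
    have hzb : Zs[b] ∈ Zs := List.getElem_mem hb
    rw [h3, h4]
    rcases h5 with ⟨h5, h6⟩ | h5
    · subst h5
      exact ((hLP _ hza).A i j hi hj h6).mono (hZH _ hza) (by omega)
    · have hdab : _root_.Disjoint (Zs[a]).1 (Zs[b]).1 :=
        (List.pairwise_iff_getElem.1 hdis) a b ha hb h5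
      obtain ⟨w, hw, y, hy, hyv, hwy⟩ := hhub _ hza _ (List.getElem_mem hi)
      obtain ⟨w', hw', y', hy', hyv', hwy'⟩ := hhub _ hzb _ (List.getElem_mem hj)
      have p1 := (hLP _ hza).B i hi y hy hyv
      have p2 := (hLP _ hzb).B j hj y' hy' hyv'
      have p3 := Pth.of_conn hKc hw hw'
      have p4 := Pth.join (H := (Zs[a]).1 ∪ K) p1 p3 hwy.symm (hdK _ hza)
        Finset.subset_union_left Finset.subset_union_right
      have p5 := Pth.join (H := H) p4 p2.symm hwy' (Finset.disjoint_union_left.2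
        ⟨hdab, (hdK _ hzb).symm⟩) (Finset.union_subset (hZH _ hza) hKH) (hZH _ hzb)
      exact p5.mono (Finset.Subset.refl _) (by omega)

/-- a new member `p` on `K` in front -/
theorem lp_cons {G : SimpleGraph V} {H : Finset V} {κ : ℕ} {p : V} {L : List V}
    (hL : LPo G H κ 1 L) (hgam : ∀ x ∈ H, x ≠ p → Pth G H p x (κ + 1))
    (hpA : ∀ i (hi : i < L.length), Pth G H p L[i] (2 * κ - i)) :
    LPo G H κ 0 (p :: L) := by
  refine ⟨fun i hi x hx hne => ?_, fun i j hi hj hij => ?_⟩
  · rcases i with _ | i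
    · exact (hgam x hx (by simpa using hne)).mono (Finset.Subset.refl _) (by omega)
    · have hi' : i < L.length := by simpa using hi
      have := hL.B i hi' x hx (by simpa using hne)
      exact this.mono (Finset.Subset.refl _) (by omega)
  · rcases j with _ | j
    · omega
    · have hj' : j < L.length := by simpa using hj
      rcases i with _ | i
      · exact (hpA j hj').mono (Finset.Subset.refl _) (by omega)
      · have hi' : i < L.length := by simpa using hi
        exact (hL.A i j hi' hj' (by omega)).mono (Finset.Subset.refl _) (by omega)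

/-- the package of the new list `p :: list_1 ++ .. ++ list_t` of a 2-connected level -/
theorem lp_main {G : SimpleGraph V} {H K : Finset V} {κ : ℕ} {p : V}
    {Zs : List (Finset V × List V)} (hκ : 1 ≤ κ)
    (hKH : K ⊆ H) (hp : p ∈ K)
    (harc : ∀ a ∈ K, ∀ b ∈ K, a ≠ b → Pth G K a b (κ + 1))
    (hgam : ∀ x ∈ H, x ≠ p → Pth G H p x (κ + 1))
    (hsub : ∀ z ∈ Zs, z.1 ⊆ H \ K) (hl : ∀ z ∈ Zs, ∀ v ∈ z.2, v ∈ z.1)
    (hdis : Zs.Pairwise (fun a b : Finset V × List V => _root_.Disjoint a.1 b.1))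
    (hLP : ∀ z ∈ Zs, LPo G z.1 (κ - 1) 0 z.2)
    (hhub : ∀ z ∈ Zs, ∀ v ∈ z.2, ∃ w ∈ K, w ≠ p ∧ ∃ x ∈ z.1, x ≠ v ∧ G.Adj w x)
    (hconn : ∀ z ∈ Zs, Conn1 G (H \ z.1)) :
    LPo G H κ 0 (p :: (Zs.map Prod.snd).flatten) := by
  have hKc : Conn1 G K := by
    intro a ha b hb
    by_cases hab : a = b
    · subst hab
      exact Relation.ReflTransGen.refl
    · obtain ⟨q, h1, h2, h3, h4⟩ := harc a ha b hb hab
      exact reach_of_seg h1 h3
  have hZH : ∀ z ∈ Zs, z.1 ⊆ H := fun z hz => (hsub z hz).trans Finset.sdiff_subset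
  have hdK : ∀ z ∈ Zs, _root_.Disjoint z.1 K := fun z hz =>
    Finset.disjoint_left.2 fun x hx hxK => (Finset.mem_sdiff.1 (hsub z hz hx)).2 hxK
  have hflat : LPo G H κ 1 (Zs.map Prod.snd).flatten := by
    refine lp_flat hKH hKc hsub hl hdis (fun z hz => (hLP z hz).mono (by omega)) ?_ hconn
    intro z hz v hv
    obtain ⟨w, hw, _, x, hx, h1, h2⟩ := hhub z hz v hv
    exact ⟨w, hw, x, hx, h1, h2⟩
  refine lp_cons hflat hgam ?_
  intro g hg
  obtain ⟨a, ha, i, hi, h1, h2⟩ := flat_get (Zs := Zs) g hg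
  have hz : Zs[a] ∈ Zs := List.getElem_mem ha
  rw [h2]
  obtain ⟨w, hw, hwp, y, hy, hyv, hwy⟩ := hhub _ hz _ (List.getElem_mem hi)
  have p1 := (hLP _ hz).B i hi y hy hyv
  have p2 := harc p hp w hw (Ne.symm hwp)
  have p3 := Pth.join (H := H) p2 p1.symm hwy (hdK _ hz).symm hKH (hZH _ hz)
  exact p3.mono (Finset.Subset.refl _) (by omega)

end Pool.Agent.H17P
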